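import Mathlib
import Pool.Agent.H57R2.AMSeries

/-!
The abscissa of convergence of `∑ g ^ (-s)` over the genera `g` with `N(g) = 8 (g + 1)`, the
Accola–Maclachlan bound, is `1`.

Idea: for a prime `p ≡ -1 (mod lcm(1,…,19))`, `p > 6 · 24!`, the genus `g = 2 p + 1` satisfies
`N(g) = 8 (g + 1)`.
-/

set_option autoImplicit false

open scoped commutatorElement

namespace Pool.Agent.Results.MP_01ebcc_al.AbscissaOne

/-- `ActsInGenus G g`: the finite group `G` acts faithfully by biholomorphic maps on some closed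
Riemann surface of genus `g` (`g ≥ 2`), in the usual combinatorial form given by uniformisation and the
Riemann existence theorem. There are an orbit genus `h`, a number `r` of branch points and a
generating vector `a₁, b₁, …, a_h, b_h, x₁, …, x_r` of `G`: these elements generate `G`,
`∏ [a_i, b_i] ∏ x_j = 1`, no `x_j` is trivial, and the Riemann–Hurwitz formula
`2 g - 2 = |G| (2 h - 2 + ∑ (1 - 1 / ord(x_j)))` holds. -/
def ActsInGenus (G : Type) [Group G] (g : ℕ) : Prop :=
  ∃ (h r : ℕ) (a b : Fin h → G) (x : Fin r → G),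
    Subgroup.closure (Set.range a ∪ Set.range b ∪ Set.range x) = ⊤ ∧
    (List.ofFn fun i => ⁅a i, b i⁆).prod * (List.ofFn x).prod = 1 ∧
    (∀ j, x j ≠ 1) ∧
    2 * (g : ℚ) - 2 = (Nat.card G : ℚ) * (2 * (h : ℚ) - 2 + ∑ j, (1 - 1 / (orderOf (x j) : ℚ)))

/-- The set of orders of finite groups acting on closed Riemann surfaces of genus `g`. -/
def actingOrders (g : ℕ) : Set ℕ :=
  {n | ∃ (G : Type) (_ : Group G), Finite G ∧ ActsInGenus G g ∧ Nat.card G = n}

/-- `N g`: the largest order of an automorphism group of a closed Riemann surface of genus `g`. -/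
noncomputable def N (g : ℕ) : ℕ := sSup (actingOrders g)

/-- The set of genera `g ≥ 2` with `N(g) = 8 (g + 1)`. -/
def H : Set ℕ := {g | 2 ≤ g ∧ N g = 8 * (g + 1)}

/-- `N g` is indeed a maximum for `g ≥ 2`. -/
theorem isGreatest_N {g : ℕ} (hg : 2 ≤ g) : IsGreatest (actingOrders g) (N g) :=
  H57R2.AM.isGreatest_maxOrder hg

/-- The classical bounds `8 (g + 1) ≤ N(g) ≤ 84 (g - 1)`. -/
theorem bounds_N {g : ℕ} (hg : 2 ≤ g) : 8 * (g + 1) ≤ N g ∧ N g ≤ 84 * (g - 1) := by
  constructor
  · exact (isGreatest_N hg).2 (H57R2.AM.groupOrders_nonempty g)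
  · obtain ⟨G, _, hfin, hact, hc⟩ := (isGreatest_N hg).1
    rw [← hc]
    exact H57R2.AM.hurwitz hg hact

/-- The key family of genera. -/
theorem mem_H {p : ℕ} (hp : p.Prime) (hM : 232792560 ∣ p + 1) (hbig : 6 * Nat.factorial 24 < p) :
    2 * p + 1 ∈ H :=
  ⟨by have := hp.two_le; omega, H57R2.AM.maxOrder_eq hp hM hbig⟩

/-- The abscissa of (absolute) convergence of the Dirichlet series `∑_{g ∈ H} g ^ (-s)` is `1`. -/
theorem result : LSeries.abscissaOfAbsConv (H.indicator fun _ => (1 : ℂ)) = 1 := by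
  classical
  apply le_antisymm
  · refine LSeries.abscissaOfAbsConv_le_of_le_const ⟨1, fun n _ => ?_⟩
    by_cases h : n ∈ H
    · rw [Set.indicator_of_mem h]; simp
    · rw [Set.indicator_of_notMem h]; simp
  · by_contra hlt
    push Not at hlt
    obtain ⟨s, hs1, hs2⟩ := EReal.lt_iff_exists_real_btwn.mp hlt
    have hs : s < 1 := by exact_mod_cast hs2
    set f : ℕ → ℝ := H.indicator fun _ => (1 : ℝ) with hf
    have hfc : (fun n => ((f n : ℝ) : ℂ)) = H.indicator fun _ => (1 : ℂ) := by
      ext n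
      by_cases h : n ∈ H
      · rw [hf, Set.indicator_of_mem h, Set.indicator_of_mem h]; simp
      · rw [hf, Set.indicator_of_notMem h, Set.indicator_of_notMem h]; simp
    have hsum := LSeries.summable_real_of_abscissaOfAbsConv_lt (f := f) (x := s) (by rw [hfc]; exact hs1)
    refine H57R2.AM.not_summable_of_primes H (6 * Nat.factorial 24) (fun p hp hM hB => mem_H hp hM hB) s hs ?_
    refine hsum.congr ?_
    intro n
    by_cases h : n ∈ H
    · rw [hf, Set.indicator_of_mem h, if_pos h, Real.rpow_neg (Nat.cast_nonneg n)]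
      simp
    · rw [hf, Set.indicator_of_notMem h, if_neg h, zero_div]

end Pool.Agent.Results.MP_01ebcc_al.AbscissaOne
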